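import Pool.Agent.NH8.CM

/-!
# The semialgebraic form of Mazur's conjecture for systems built from cubic polynomials

Let `f₁, …, f_n` be arbitrary polynomials over `ℚ` of total degree at most three, in disjoint sets
of variables (each in any number of variables, smooth or singular, reducible or not), and let
`g₁, …, g_k` be arbitrary quadratic or cubic forms over `ℚ` in further disjoint sets of variables.
To every `f_b` we attach an exponent `μ_b`, two or three. We consider the system

`g_j(x) = c_j ∏_b f_b(z)^{E_jb}` for `j = 1, …, k`, where `κ_j = deg g_j` divides every `μ_b E_jb`.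

The theorem: the closure of the set of all rational points `(z, x)`, and of the set of the values
of arbitrary rational functions at the rational points, is semialgebraic over `ℚ`. There is no
hypothesis on the rational points. More generally, one can restrict to the rational points `(z, x)`
for which `(f₁(z), …, f_n(z))` is in a set `D` which is an arbitrary union of classes modulo
`μ_b`-th powers in the coordinate with the number `b`.

Examples: (a) `w³ = f₁(z₁) f₂(z₂) ⋯ f_n(z_n)` and `w² = f₁(z₁) f₂(z₂) ⋯ f_n(z_n)` with arbitrary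
cubic polynomials, for instance the `K3` surfaces `w³ = f₁(s) f₂(t)` (quotients of products of two
curves of genus one with multiplication by a cube root of unity), and coverings
`w² = f₁(s, t) f₂(u, v)`. (b) The equations `N(x₁, x₂, x₃) = ∏_b f_b(z_b)` with the norm form of a
cubic field, or `a x³ + b y³ + c z³ = ∏_b f_b(z_b)`. (c) For a cubic polynomial `f` in any number of
variables over `ℚ`, an elliptic curve `E` over `ℚ` and an integer `r`: the closure of the set of all
rational `z` such that the quadratic twist of `E` by `f(z)` has rank at least `r` is semialgebraic;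
the same is true of the set of all rational `z` such that the curve `x³ + y³ = f(z)` has rank at
least `r` (here `n = 1`, `k = 0`).

The main point is that for every class `d` and every `f_b` the rational solutions of
`f_b(z) = d w^{μ_b}` are dense near each of its nonsingular rational solutions, outside of finitely
many linear subspaces on which one can argue by induction.
-/

set_option autoImplicit false

namespace Pool.Agent.Results.MP_42de19_nt.CubicSystems

open MvPolynomial Pool.Agent.TH729.SQ Pool.Agent.Y718 Pool.Agent.H581R2 Pool.Agent.NH8.K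
  Pool.Agent.NH8.C

/-- Semialgebraic sets defined over `ℚ`: the finite unions of sets
`{p = 0, q₁ > 0, …, q_k > 0}`, where `p` and the `qᵢ` are polynomials with rational
coefficients. -/
def Semialgebraic {n : ℕ} (S : Set (Fin n → ℝ)) : Prop :=
  ∃ (m : ℕ) (P : Fin m → MvPolynomial (Fin n) ℚ) (G : Fin m → Finset (MvPolynomial (Fin n) ℚ)),
    S = {x : Fin n → ℝ | ∃ j : Fin m, (aeval x (P j) : ℝ) = 0 ∧
      ∀ g ∈ G j, (0 : ℝ) < aeval x g}

/-- **The closure of the set of the values of rational functions at the rational points of a system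
`g_j(x) = c_j ∏_b f_b(z)^{E_jb}`.** -/
theorem result (N n : ℕ) (f : Fin n → MvPolynomial (Fin N) ℚ)
    -- arbitrary polynomials of degree at most three in disjoint sets of variables
    (hdisj : ∀ b b', b ≠ b' → Disjoint (f b).vars (f b').vars)
    (hf : ∀ b, (f b).totalDegree ≤ 3)
    -- the exponents, and an arbitrary union of classes modulo powers
    (μ : Fin n → ℕ) (hμ : ∀ b, μ b = 2 ∨ μ b = 3) (D : Set (Fin n → ℚ))
    (hD : ∀ d ∈ D, ∀ s : Fin n → ℚ, (∀ b, s b ≠ 0) → (fun b => s b ^ μ b * d b) ∈ D)
    -- arbitrary quadratic and cubic forms in disjoint sets of variables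
    (r k : ℕ) (g : Fin k → MvPolynomial (Fin r) ℚ) (κ : Fin k → ℕ) (hκ : ∀ j, κ j = 2 ∨ κ j = 3)
    (hg : ∀ j, (g j).IsHomogeneous (κ j))
    (gdisj : ∀ j j', j ≠ j' → Disjoint (g j).vars (g j').vars)
    -- the system
    (c : Fin k → ℚ) (E : Fin k → Fin n → ℕ) (hE : ∀ j b, κ j ∣ μ b * E j b)
    -- the rational functions
    (m : ℕ) (p : Fin m → MvPolynomial (Fin N ⊕ Fin r) ℚ) (q : MvPolynomial (Fin N ⊕ Fin r) ℚ) :
    Semialgebraic (closure {y : Fin m → ℝ | ∃ (z : Fin N → ℚ) (x : Fin r → ℚ),
      (fun b => eval z (f b)) ∈ D ∧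
      (∀ j, eval x (g j) = c j * ∏ b, eval z (f b) ^ E j b) ∧
      eval (Sum.elim z x) q ≠ 0 ∧
      ∀ l, y l = ((eval (Sum.elim z x) (p l) / eval (Sum.elim z x) q : ℚ) : ℝ)}) := by
  classical
  -- one more equation `0 = 0`
  let g' : Option (Fin k) → MvPolynomial (Fin r) ℚ := fun o => o.elim 0 g
  let κ' : Option (Fin k) → ℕ := fun o => o.elim 2 κ
  let c' : Option (Fin k) → ℚ := fun o => o.elim 0 c
  let E' : Option (Fin k) → Fin n → ℕ := fun o => o.elim (fun _ => 0) E
  let e : Fin r → Option (Fin k) := fun i => if h : ∃ j, i ∈ (g j).vars then some h.choose else none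
  have hv : ∀ o, ∀ i ∈ (g' o).vars, e i = o := by
    rintro (_ | j) i hi
    · have h0 : (g' none).vars = ∅ := vars_0
      rw [h0] at hi
      exact absurd hi (Finset.notMem_empty i)
    · have hi' : i ∈ (g j).vars := hi
      have hex : ∃ j, i ∈ (g j).vars := ⟨j, hi'⟩
      have h1 : e i = some hex.choose := dif_pos hex
      rw [h1]
      by_contra hne
      have h2 : hex.choose ≠ j := fun h => hne (by rw [h])
      exact Finset.disjoint_left.1 (gdisj _ _ h2) hex.choose_spec hi'
  have hκ' : ∀ o, κ' o = 2 ∨ κ' o = 3 := by
    rintro (_ | j)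
    · exact Or.inl rfl
    · exact hκ j
  have hg' : ∀ o, (g' o).IsHomogeneous (κ' o) := by
    rintro (_ | j)
    · exact isHomogeneous_zero _ _ _
    · exact hg j
  have hE' : ∀ o b, κ' o ∣ μ b * E' o b := by
    rintro (_ | j) b
    · exact Dvd.intro_left (μ b * 0) (by simp [E'])
    · exact hE j b
  have hS := Sx_SA (V := fun b => (f b).vars) (m := μ) (fun b c hbc => hdisj b c hbc)
    (fun b => blk_cubic (Finset.Subset.refl _) (hf b) (hμ b)) hv
    (fun o => by rcases hκ' o with h | h <;> rw [h] <;> norm_num) hg'
    (fun o => blk_cubic (fun i hi => Finset.mem_filter.2 ⟨Finset.mem_univ i, hv o i hi⟩)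
      ((hg' o).totalDegree_le.trans (by rcases hκ' o with h | h <;> rw [h] <;> norm_num))
      (hκ' o)) (c := c') hE' (D := D) hD
  have h5 := values_main (ι := Unit) (κ := Empty) (n := Fin N ⊕ Fin r)
    (fun _ => Sx f g' c' E' D) (fun _ => hS)
    (fun l => rename (fun i => Sum.inl ((), i)) (p l)) (rename (fun i => Sum.inl ((), i)) q)
  refine SA.frozen ?_
  refine cast ?_ h5
  congr 2
  ext y
  simp only [Set.mem_ofPred_eq, eval_rename]
  constructor
  · rintro ⟨X, u, hX, hq, hy⟩
    have e1 : (Sum.elim (fun r : Unit × (Fin N ⊕ Fin r) => X r.1 r.2) u) ∘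
        (fun i => Sum.inl ((), i)) = Sum.elim (fun i => X () (Sum.inl i))
          (fun i => X () (Sum.inr i)) := by
      funext s
      rcases s with s | s <;> rfl
    rw [e1] at hq
    simp only [e1] at hy
    exact ⟨fun i => X () (Sum.inl i), fun i => X () (Sum.inr i), (hX ()).1,
      fun j => (hX ()).2 (some j), hq, hy⟩
  · rintro ⟨z, x, hz, hx, hq, hy⟩
    refine ⟨fun _ => Sum.elim z x, fun i => i.elim, fun _ => ⟨hz, ?_⟩, hq, hy⟩
    rintro (_ | j)
    · show eval x (0 : MvPolynomial (Fin r) ℚ) = 0 * _
      rw [map_zero, zero_mul]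
    · exact hx j

end Pool.Agent.Results.MP_42de19_nt.CubicSystems
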