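import Pool.Agent.NH8.KC
import Pool.Agent.NH8.KD

/-!
# The semialgebraic form of Mazur's conjecture for Kummer varieties and diagonal quadric bundles

Let `f₁, …, f_n` be polynomials over `ℚ` in disjoint sets of variables, such that each `f_b` is

* a polynomial in one variable such that the curve `w² = f_b(t)` has genus at most one, that is, of
  the form `g² h` with `h` of degree at most four, or
* a polynomial of degree at most two in each of its variables, such that the closure of the set of
  its rational zeros is semialgebraic over `ℚ` (for example if its total degree is at most three).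

We consider varieties given by `k` equations of diagonal quadrics, in disjoint sets of variables,
the coefficients of which are monomials in the values of the `f_b`:

`∑_{i : e(i) = j} a_i M_i(z) x_i² = c_j M'_j(z)` for `j = 1, …, k`, where `M_i = ∏_b f_b^{E_ib}` and
`M'_j = ∏_b f_b^{E'_jb}`.

The theorem: the closure of the set of all rational points, and of the set of the values at the
rational points of arbitrary rational functions, is semialgebraic over `ℚ`. There is no hypothesis
on the rational points. More generally, one can restrict to the rational points `(z, x)` for which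
`(f₁(z), …, f_n(z))` is in a set `D` which is an arbitrary union of classes modulo squares.

Examples: (a) `w_j² = c_j ∏_b f_b(z)^{e_jb}` for `j = 1, …, k` with quartic polynomials
`f_b(z_b)`: the quotients of products of curves of genus one by groups of sign changes and all their
twists, such as the Kummer surfaces `w² = f₁(z₁) f₂(z₂)`, or the Calabi-Yau varieties
`w_j² = f_j(z_j) f_{j+1}(z_{j+1})`. (b) The conic bundles `x² + f₁(z₁) y² = f₂(z₂)` over the
plane with quartic polynomials `f₁` and `f₂`. (c) Equations `N(x + y √a) = ∏_b f_b(z_b)`.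
(d) For an elliptic curve `E` over `ℚ`, a quartic polynomial `f` and an integer `r`, the closure of
the set of all rational `t` such that the quadratic twist of `E` by `f(t)` has rank at least `r` is
semialgebraic (here `n = 1`, `k = 0`).
-/

set_option autoImplicit false

namespace Pool.Agent.Results.MP_42de19_nt.KummerSystems

open MvPolynomial Pool.Agent.TH729.SQ Pool.Agent.Y718 Pool.Agent.H581R2 Pool.Agent.NH8.K

/-- Semialgebraic sets defined over `ℚ`: the finite unions of sets
`{p = 0, q₁ > 0, …, q_k > 0}`, where `p` and the `qᵢ` are polynomials with rational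
coefficients. -/
def Semialgebraic {n : ℕ} (S : Set (Fin n → ℝ)) : Prop :=
  ∃ (m : ℕ) (P : Fin m → MvPolynomial (Fin n) ℚ) (G : Fin m → Finset (MvPolynomial (Fin n) ℚ)),
    S = {x : Fin n → ℝ | ∃ j : Fin m, (aeval x (P j) : ℝ) = 0 ∧
      ∀ g ∈ G j, (0 : ℝ) < aeval x g}

theorem Semialgebraic.sa {n : ℕ} {S : Set (Fin n → ℝ)} (h : Semialgebraic S) : SA S := by
  obtain ⟨m, P, G, rfl⟩ := h
  refine SAP.exists_fin fun j => SAP.and (SAP.eq_zero (PF.aeval (P j))) ?_
  exact SAP.forall_mem (G j) fun g _ => SAP.pos (PF.aeval g)

/-- **The closure of the set of the values of rational functions at the rational points of a system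
of diagonal quadrics with coefficients which are monomials in the `f_b`.** -/
theorem result (N n : ℕ) (f : Fin n → MvPolynomial (Fin N) ℚ)
    -- the sets of variables are disjoint
    (hdisj : ∀ b b', b ≠ b' → Disjoint (f b).vars (f b').vars)
    (hf : ∀ b,
      -- one variable, and `w² = f_b(t)` has genus at most one
      ((∃ i, (f b).vars ⊆ {i}) ∧
        ∃ g h : MvPolynomial (Fin N) ℚ, f b = g ^ 2 * h ∧ h.totalDegree ≤ 4) ∨
      -- or degree at most two in each variable
      ((∀ i, (f b).degreeOf i ≤ 2) ∧ ((f b).totalDegree ≤ 3 ∨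
        Semialgebraic (closure {x : Fin N → ℝ | ∃ z : Fin N → ℚ, eval z (f b) = 0 ∧
          ∀ i, x i = (z i : ℝ)}))))
    -- an arbitrary union of classes modulo squares
    (D : Set (Fin n → ℚ))
    (hD : ∀ d ∈ D, ∀ s : Fin n → ℚ, (∀ b, s b ≠ 0) → (fun b => s b ^ 2 * d b) ∈ D)
    -- the system
    (r k : ℕ) (e : Fin r → Fin k) (a : Fin r → ℚ) (E : Fin r → Fin n → ℕ) (c : Fin k → ℚ)
    (E' : Fin k → Fin n → ℕ)
    -- the rational functions
    (m : ℕ) (p : Fin m → MvPolynomial (Fin N ⊕ Fin r) ℚ) (q : MvPolynomial (Fin N ⊕ Fin r) ℚ) :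
    Semialgebraic (closure {y : Fin m → ℝ | ∃ (z : Fin N → ℚ) (x : Fin r → ℚ),
      (fun b => eval z (f b)) ∈ D ∧
      (∀ j, ∑ i with e i = j, a i * (∏ b, eval z (f b) ^ E i b) * x i ^ 2 =
        c j * ∏ b, eval z (f b) ^ E' j b) ∧
      eval (Sum.elim z x) q ≠ 0 ∧
      ∀ l, y l = ((eval (Sum.elim z x) (p l) / eval (Sum.elim z x) q : ℚ) : ℝ)}) := by
  have hblk : ∀ b, Blk (f b).vars 2 (f b) Set.univ := by
    intro b
    rcases hf b with ⟨h1, h2⟩ | ⟨h1, h2⟩
    · exact blk_uni' h1 h2
    · refine blk_two (Finset.Subset.refl _) h1 ?_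
      rcases h2 with h2 | h2
      · exact poly_SA (f b) h2
      · have h3 : rl {z : Fin N → ℚ | eval z (f b) = 0} = {x : Fin N → ℝ | ∃ z : Fin N → ℚ,
            eval z (f b) = 0 ∧ ∀ i, x i = (z i : ℝ)} := by
          ext x
          constructor
          · rintro ⟨z, hz, rfl⟩
            exact ⟨z, hz, fun _ => rfl⟩
          · rintro ⟨z, hz, hx⟩
            exact ⟨z, hz, funext hx⟩
        rw [h3]
        exact h2.sa
  have hS := Sy_SA e a E c E' (fun b c hbc => hdisj b c hbc) hblk (D := D) hD
  have h5 := values_main (ι := Unit) (κ := Empty) (n := Fin N ⊕ Fin r)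
    (fun _ => Sy e a E c E' f (As f (fun _ => Set.univ) D)) (fun _ => hS)
    (fun l => rename (fun i => Sum.inl ((), i)) (p l)) (rename (fun i => Sum.inl ((), i)) q)
  refine SA.frozen ?_
  refine cast ?_ h5
  congr 2
  ext y
  simp only [Set.mem_ofPred_eq, eval_rename]
  constructor
  · rintro ⟨X, u, hX, hq, hy⟩
    have e1 : (Sum.elim (fun r : Unit × (Fin N ⊕ Fin r) => X r.1 r.2) u) ∘
        (fun i => Sum.inl ((), i)) = Sum.elim (fun i => X () (Sum.inl i))
          (fun i => X () (Sum.inr i)) := by
      funext s
      rcases s with s | s <;> rfl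
    rw [e1] at hq
    simp only [e1] at hy
    exact ⟨fun i => X () (Sum.inl i), fun i => X () (Sum.inr i), (hX ()).1.2, (hX ()).2, hq, hy⟩
  · rintro ⟨z, x, hz, hx, hq, hy⟩
    refine ⟨fun _ => Sum.elim z x, fun i => i.elim, fun _ => ⟨⟨fun _ => Set.mem_univ _, ?_⟩, ?_⟩,
      hq, hy⟩
    · exact hz
    · exact hx

end Pool.Agent.Results.MP_42de19_nt.KummerSystems
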