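import Pool.Agent.NH8.RG

/-!
# The semialgebraic form of Mazur's conjecture for systems with classes modulo higher powers

Let `f₁, …, f_n` be polynomials over `ℚ` in disjoint sets of variables, and to every `f_b` let
there be given an exponent `μ_b`, such that

* `f_b` has degree at most one (any number of variables, any exponent `μ_b ≥ 1`), or
* `μ_b = 4`, and `f_b` has total degree at most two (any number of variables), or
* `f_b = g^{μ_b} h` is a polynomial in one variable, where `h` is of degree at most four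
  (`μ_b = 2`), of degree at most three (`μ_b = 3`), of the form `q l²` with `deg q ≤ 2`,
  `deg l ≤ 1` (`μ_b = 4`), or of the form `l₁ l₂² l₃³` with `deg l_i ≤ 1` (`μ_b = 6`).

The curves `w^{μ_b} = f_b(t)` for the polynomials in one variable have genus at most one; these are
the cyclic coverings of the line of the types `(2,2,2,2)`, `(3,3,3)`, `(4,4,2)`, `(6,3,2)`.
Let `g₁, …, g_k` be forms over `ℚ` in further disjoint sets of variables: arbitrary quadratic or
cubic forms, or powers of variables. We consider the system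

`g_j(x) = c_j ∏_b f_b(z)^{E_jb}` for `j = 1, …, k`, where `κ_j = deg g_j` divides every `μ_b E_jb`.

The theorem: the closure of the set of all rational points `(z, x)`, and of the set of the values
of arbitrary rational functions at the rational points, is semialgebraic over `ℚ`. There is no
hypothesis on the rational points. More generally, one can restrict to the rational points `(z, x)`
for which `(f₁(z), …, f_n(z))` is in a set `D` which is an arbitrary union of classes modulo
`μ_b`-th powers in the coordinate with the number `b`.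

Examples: (a) `w⁴ = f₁(z₁) f₂(z₂) ⋯ f_n(z_n)` with polynomials of degree two, for instance the
`K3` surfaces `w⁴ = f₁(s) f₂(t)` (quotients of products of two curves with the invariant `1728` by a
group of order four) and `w⁶ = f₁(s) f₂(t)` with `f₁(s) = s (s + 1)²`,
`f₂(t) = t (t + 2)² (t + 3)³`. (b) For a polynomial `f` of degree two in any number of variables
over `ℚ` and an integer `r`: the closure of the set of all rational `z` such that the elliptic curve
`y² = x³ - f(z) x` has rank at least `r` is semialgebraic; the same is true of the set of all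
rational `t` such that the elliptic curve `y² = x³ + l₁(t) l₂(t)² l₃(t)³` has rank at least `r`
(here `n = 1`, `k = 0`).

The main point is that for all rational points off finitely many exceptional sets the curves
`f_b = d w⁴` and `f_b = d w⁶` (on the line, or on general lines through the point) have infinitely
many rational points, since the corresponding points on the quartic and sextic twists
`y² = x³ + D x`, `y² = x³ + D` have infinite order as soon as `x² / D`, `x³ / D` is not in a finite
set; here the heights of these numbers grow under duplication.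
-/

set_option autoImplicit false

namespace Pool.Agent.Results.MP_42de19_nt.QuarticSexticClasses

open MvPolynomial Pool.Agent.TH729.SQ Pool.Agent.Y718 Pool.Agent.H581R2 Pool.Agent.NH8.K
  Pool.Agent.NH8.C Pool.Agent.NH8.R

/-- Semialgebraic sets defined over `ℚ`: the finite unions of sets
`{p = 0, q₁ > 0, …, q_k > 0}`, where `p` and the `qᵢ` are polynomials with rational
coefficients. -/
def Semialgebraic {n : ℕ} (S : Set (Fin n → ℝ)) : Prop :=
  ∃ (m : ℕ) (P : Fin m → MvPolynomial (Fin n) ℚ) (G : Fin m → Finset (MvPolynomial (Fin n) ℚ)),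
    S = {x : Fin n → ℝ | ∃ j : Fin m, (aeval x (P j) : ℝ) = 0 ∧
      ∀ g ∈ G j, (0 : ℝ) < aeval x g}

/-- The polynomials `h` in one variable for the exponent `μ`. -/
def Genus1 (μ : ℕ) (h : Polynomial ℚ) : Prop :=
  (μ = 2 ∧ h.natDegree ≤ 4) ∨ (μ = 3 ∧ h.natDegree ≤ 3) ∨
  (μ = 4 ∧ ∃ q l : Polynomial ℚ, q.natDegree ≤ 2 ∧ l.natDegree ≤ 1 ∧ h = q * l ^ 2) ∨
  (μ = 6 ∧ ∃ l₁ l₂ l₃ : Polynomial ℚ, l₁.natDegree ≤ 1 ∧ l₂.natDegree ≤ 1 ∧ l₃.natDegree ≤ 1 ∧
    h = l₁ * l₂ ^ 2 * l₃ ^ 3)

/-- The polynomials `f` for the exponent `μ`. -/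
def Admissible {N : ℕ} (μ : ℕ) (f : MvPolynomial (Fin N) ℚ) : Prop :=
  (1 ≤ μ ∧ f.totalDegree ≤ 1) ∨ (μ = 4 ∧ f.totalDegree ≤ 2) ∨
  ∃ (i : Fin N) (g h : Polynomial ℚ), Genus1 μ h ∧
    f = Polynomial.aeval (X i : MvPolynomial (Fin N) ℚ) (g ^ μ * h)

lemma totalDegree_aevalX {N : ℕ} (p : Polynomial ℚ) (i : Fin N) :
    (Polynomial.aeval (X i : MvPolynomial (Fin N) ℚ) p).totalDegree ≤ p.natDegree := by
  rw [Polynomial.aeval_eq_sum_range]
  refine MvPolynomial.totalDegree_finsetSum_le fun k hk => ?_
  refine (MvPolynomial.totalDegree_smul_le _ _).trans ?_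
  refine (MvPolynomial.totalDegree_pow _ _).trans ?_
  rw [MvPolynomial.totalDegree_X, mul_one]
  exact Nat.lt_succ_iff.1 (Finset.mem_range.1 hk)

lemma Admissible.blk {N μ : ℕ} {f : MvPolynomial (Fin N) ℚ} (h : Admissible μ f) :
    Blk f.vars μ f Set.univ := by
  rcases h with ⟨h1, h2⟩ | ⟨rfl, h2⟩ | ⟨i, g, h, hh, rfl⟩
  · exact blk_one (Finset.Subset.refl _) h2 (by omega)
  · exact blk_quad (Finset.Subset.refl _) h2
  · refine blk_vars (vars_aevalX _ i) (blk_pow ?_)
    rcases hh with ⟨rfl, h1⟩ | ⟨rfl, h1⟩ | ⟨rfl, q, l, hq, hl, rfl⟩ |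
      ⟨rfl, l₁, l₂, l₃, h1, h2, h3, rfl⟩
    · exact blk_uni (vars_aevalX _ i) ⟨1, _, by rw [one_pow, one_mul],
        (totalDegree_aevalX _ i).trans h1⟩
    · exact blk_cubic (vars_aevalX _ i) ((totalDegree_aevalX _ i).trans h1) (Or.inr rfl)
    · exact blk_four hq hl i
    · exact blk_six h1 h2 h3 i

/-- **The closure of the set of the values of rational functions at the rational points of a system
`g_j(x) = c_j ∏_b f_b(z)^{E_jb}`.** -/
theorem result (N n : ℕ) (f : Fin n → MvPolynomial (Fin N) ℚ)
    -- admissible polynomials in disjoint sets of variables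
    (hdisj : ∀ b b', b ≠ b' → Disjoint (f b).vars (f b').vars)
    (μ : Fin n → ℕ) (hf : ∀ b, Admissible (μ b) (f b))
    -- an arbitrary union of classes modulo powers
    (D : Set (Fin n → ℚ))
    (hD : ∀ d ∈ D, ∀ s : Fin n → ℚ, (∀ b, s b ≠ 0) → (fun b => s b ^ μ b * d b) ∈ D)
    -- quadratic forms, cubic forms, and powers of variables, in disjoint sets of variables
    (r k : ℕ) (g : Fin k → MvPolynomial (Fin r) ℚ) (κ : Fin k → ℕ)
    (hg : ∀ j, ((κ j = 2 ∨ κ j = 3) ∧ (g j).IsHomogeneous (κ j)) ∨
      (1 ≤ κ j ∧ ∃ i, g j = X i ^ κ j))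
    (gdisj : ∀ j j', j ≠ j' → Disjoint (g j).vars (g j').vars)
    -- the system
    (c : Fin k → ℚ) (E : Fin k → Fin n → ℕ) (hE : ∀ j b, κ j ∣ μ b * E j b)
    -- the rational functions
    (m : ℕ) (p : Fin m → MvPolynomial (Fin N ⊕ Fin r) ℚ) (q : MvPolynomial (Fin N ⊕ Fin r) ℚ) :
    Semialgebraic (closure {y : Fin m → ℝ | ∃ (z : Fin N → ℚ) (x : Fin r → ℚ),
      (fun b => eval z (f b)) ∈ D ∧
      (∀ j, eval x (g j) = c j * ∏ b, eval z (f b) ^ E j b) ∧
      eval (Sum.elim z x) q ≠ 0 ∧
      ∀ l, y l = ((eval (Sum.elim z x) (p l) / eval (Sum.elim z x) q : ℚ) : ℝ)}) := by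
  classical
  -- one more equation `0 = 0`
  let g' : Option (Fin k) → MvPolynomial (Fin r) ℚ := fun o => o.elim 0 g
  let κ' : Option (Fin k) → ℕ := fun o => o.elim 2 κ
  let c' : Option (Fin k) → ℚ := fun o => o.elim 0 c
  let E' : Option (Fin k) → Fin n → ℕ := fun o => o.elim (fun _ => 0) E
  let e : Fin r → Option (Fin k) := fun i => if h : ∃ j, i ∈ (g j).vars then some h.choose else none
  have hv : ∀ o, ∀ i ∈ (g' o).vars, e i = o := by
    rintro (_ | j) i hi
    · have h0 : (g' none).vars = ∅ := vars_0
      rw [h0] at hi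
      exact absurd hi (Finset.notMem_empty i)
    · have hi' : i ∈ (g j).vars := hi
      have hex : ∃ j, i ∈ (g j).vars := ⟨j, hi'⟩
      have h1 : e i = some hex.choose := dif_pos hex
      rw [h1]
      by_contra hne
      have h2 : hex.choose ≠ j := fun h => hne (by rw [h])
      exact Finset.disjoint_left.1 (gdisj _ _ h2) hex.choose_spec hi'
  have hv' : ∀ j i, e i = some j → i ∈ (g j).vars := by
    intro j i hi
    by_cases hex : ∃ j, i ∈ (g j).vars
    · have h1 : e i = some hex.choose := dif_pos hex
      rw [h1] at hi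
      have h2 : hex.choose = j := Option.some_injective _ hi
      rw [← h2]
      exact hex.choose_spec
    · have h1 : e i = none := dif_neg hex
      rw [h1] at hi
      exact absurd hi (by simp)
  have hκ' : ∀ o, κ' o ≠ 0 := by
    rintro (_ | j)
    · exact two_ne_zero
    · show κ j ≠ 0
      rcases hg j with ⟨h | h, -⟩ | ⟨h, -⟩ <;> omega
  have hg' : ∀ o, (g' o).IsHomogeneous (κ' o) := by
    rintro (_ | j)
    · exact isHomogeneous_zero _ _ _
    · rcases hg j with ⟨-, h⟩ | ⟨-, i, hi⟩
      · exact h
      · show (g j).IsHomogeneous (κ j)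
        rw [hi]
        simpa using (isHomogeneous_X ℚ i).pow (κ j)
  have hgB : ∀ o, Blk (Finset.univ.filter fun i => e i = o) (κ' o) (g' o) Set.univ := by
    rintro (_ | j)
    · refine blk_cubic (fun i hi => Finset.mem_filter.2 ⟨Finset.mem_univ i, hv none i hi⟩) ?_
        (Or.inl rfl)
      show (0 : MvPolynomial (Fin r) ℚ).totalDegree ≤ 3
      rw [totalDegree_zero]
      norm_num
    · have hVj : (Finset.univ.filter fun i => e i = some j) = (g j).vars := by
        ext i
        rw [Finset.mem_filter]
        exact ⟨fun h => hv' j i h.2, fun h => ⟨Finset.mem_univ i, hv (some j) i h⟩⟩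
      rw [hVj]
      show Blk (g j).vars (κ j) (g j) Set.univ
      rcases hg j with ⟨h1, h2⟩ | ⟨h1, i, hi⟩
      · exact blk_cubic (Finset.Subset.refl _)
          (h2.totalDegree_le.trans (by rcases h1 with h | h <;> omega)) h1
      · rw [hi]
        refine blk_vars ?_ (blk_var (by omega) i)
        refine (MvPolynomial.vars_pow _ _).trans ?_
        rw [MvPolynomial.vars_X]
  have hE' : ∀ o b, κ' o ∣ μ b * E' o b := by
    rintro (_ | j) b
    · exact Dvd.intro_left (μ b * 0) (by simp [E'])
    · exact hE j b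
  have hS := Sx_SA (V := fun b => (f b).vars) (m := μ) (fun b c hbc => hdisj b c hbc)
    (fun b => (hf b).blk) hv hκ' hg' hgB (c := c') hE' (D := D) hD
  have h5 := values_main (ι := Unit) (κ := Empty) (n := Fin N ⊕ Fin r)
    (fun _ => Sx f g' c' E' D) (fun _ => hS)
    (fun l => rename (fun i => Sum.inl ((), i)) (p l)) (rename (fun i => Sum.inl ((), i)) q)
  refine SA.frozen ?_
  refine cast ?_ h5
  congr 2
  ext y
  simp only [Set.mem_ofPred_eq, eval_rename]
  constructor
  · rintro ⟨X, u, hX, hq, hy⟩
    have e1 : (Sum.elim (fun r : Unit × (Fin N ⊕ Fin r) => X r.1 r.2) u) ∘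
        (fun i => Sum.inl ((), i)) = Sum.elim (fun i => X () (Sum.inl i))
          (fun i => X () (Sum.inr i)) := by
      funext s
      rcases s with s | s <;> rfl
    rw [e1] at hq
    simp only [e1] at hy
    exact ⟨fun i => X () (Sum.inl i), fun i => X () (Sum.inr i), (hX ()).1,
      fun j => (hX ()).2 (some j), hq, hy⟩
  · rintro ⟨z, x, hz, hx, hq, hy⟩
    refine ⟨fun _ => Sum.elim z x, fun i => i.elim, fun _ => ⟨hz, ?_⟩, hq, hy⟩
    rintro (_ | j)
    · show eval x (0 : MvPolynomial (Fin r) ℚ) = 0 * _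
      rw [map_zero, zero_mul]
    · exact hx j

end Pool.Agent.Results.MP_42de19_nt.QuarticSexticClasses
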