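import Pool.Agent.NH8.QB

/-!
# The semialgebraic form of Mazur's conjecture for systems built from smooth quartic forms

Let `f₁, …, f_n` be quartic forms over `ℚ` in disjoint sets of variables, each in at least three
variables and with a smooth zero set in the complex projective space (the double coverings
`w² = f_b` of the projective spaces are del Pezzo surfaces of degree two, quartic double solids,
and so on). We consider varieties given by `k` equations of diagonal quadrics in disjoint sets of
further variables, the coefficients of which are monomials in the values of the `f_b`: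

`∑_{i : e(i) = j} a_i M_i(z) x_i² = c_j M'_j(z)` for `j = 1, …, k`, where `M_i = ∏_b f_b^{E_ib}` and
`M'_j = ∏_b f_b^{E'_jb}`.

The theorem: the closure of the set of all rational points `(z, x)` with `f_b(z) ≠ 0` for all `b`,
and of the set of the values at these rational points of arbitrary rational functions, is
semialgebraic over `ℚ`. More generally, one can restrict to the rational points for which
`(f₁(z), …, f_n(z))` is in a set `D` which is an arbitrary union of classes of vectors modulo
squares, with nonzero coordinates for the `f_b` whose rational zeros have a closure which is not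
known to be semialgebraic. (The conjecture is open for smooth quartic hypersurfaces, for example
for quartic surfaces. For plane quartic curves there are finitely many rational zeros by the
theorem of Faltings, which is not used; and there are forms without rational zeros.)

Examples: (a) `w² = f₁(z₁) f₂(z₂) ⋯ f_n(z_n)`, `w ≠ 0`: the quotients of products of `n` del Pezzo
surfaces of degree two by sign changes, and all their twists (their closures are the same as those
of the affine pieces `f_b(1, s, t)` under the rational maps `z ↦ z / z_0`). (b) The quadric bundles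
`x₁² + f₁(z₁) x₂² = f₂(z₂)` over products of projective spaces. (c) For an elliptic curve `E` over
`ℚ`, a smooth plane quartic `f = 0` and an integer `r`, the closure of the set of all rational
points `z` of the plane with `f(z) ≠ 0` such that the quadratic twist of `E` by `f(z)` has rank at
least `r` (here `n = 1`, `k = 0`, and `D` is the set of all `d ≠ 0` for which the twist by `d` has
rank at least `r`).
-/

set_option autoImplicit false

namespace Pool.Agent.Results.MP_42de19_nt.QuarticSystems

open MvPolynomial Pool.Agent.TH729.SQ Pool.Agent.Y718 Pool.Agent.H581R2 Pool.Agent.NH8.K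
  Pool.Agent.NH8.Q

/-- Semialgebraic sets defined over `ℚ`: the finite unions of sets
`{p = 0, q₁ > 0, …, q_k > 0}`, where `p` and the `qᵢ` are polynomials with rational
coefficients. -/
def Semialgebraic {n : ℕ} (S : Set (Fin n → ℝ)) : Prop :=
  ∃ (m : ℕ) (P : Fin m → MvPolynomial (Fin n) ℚ) (G : Fin m → Finset (MvPolynomial (Fin n) ℚ)),
    S = {x : Fin n → ℝ | ∃ j : Fin m, (aeval x (P j) : ℝ) = 0 ∧
      ∀ g ∈ G j, (0 : ℝ) < aeval x g}

theorem Semialgebraic.sa {n : ℕ} {S : Set (Fin n → ℝ)} (h : Semialgebraic S) : SA S := by
  obtain ⟨m, P, G, rfl⟩ := h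
  refine SAP.exists_fin fun j => SAP.and (SAP.eq_zero (PF.aeval (P j))) ?_
  exact SAP.forall_mem (G j) fun g _ => SAP.pos (PF.aeval g)

/-- **The closure of the set of the values of rational functions at the rational points of a system
of diagonal quadrics with coefficients which are monomials in smooth quartic forms.** -/
theorem result (N n : ℕ) (f : Fin n → MvPolynomial (Fin N) ℚ)
    -- quartic forms in disjoint sets of at least three variables
    (V : Fin n → Finset (Fin N)) (hV : ∀ b, 3 ≤ (V b).card)
    (hdisj : ∀ b b', b ≠ b' → Disjoint (V b) (V b'))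
    (hf : ∀ b, (f b).IsHomogeneous 4) (hfV : ∀ b, (f b).vars ⊆ V b)
    -- smooth: the partial derivatives have no common zero, except for zero
    (hsm : ∀ b, ∀ z : Fin N → ℂ, (∀ i, aeval z (pderiv i (f b)) = 0) → ∀ i ∈ V b, z i = 0)
    -- an arbitrary union of classes modulo squares
    (D : Set (Fin n → ℚ))
    (hD : ∀ d ∈ D, ∀ s : Fin n → ℚ, (∀ b, s b ≠ 0) → (fun b => s b ^ 2 * d b) ∈ D)
    -- the values of `f_b` are not zero, or the rational zeros of `f_b` are understood
    (hD0 : ∀ b, (∀ d ∈ D, d b ≠ 0) ∨
      Semialgebraic (closure {x : Fin N → ℝ | ∃ z : Fin N → ℚ, eval z (f b) = 0 ∧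
        ∀ i, x i = (z i : ℝ)}))
    -- the system
    (r k : ℕ) (e : Fin r → Fin k) (a : Fin r → ℚ) (E : Fin r → Fin n → ℕ) (c : Fin k → ℚ)
    (E' : Fin k → Fin n → ℕ)
    -- the rational functions
    (m : ℕ) (p : Fin m → MvPolynomial (Fin N ⊕ Fin r) ℚ) (q : MvPolynomial (Fin N ⊕ Fin r) ℚ) :
    Semialgebraic (closure {y : Fin m → ℝ | ∃ (z : Fin N → ℚ) (x : Fin r → ℚ),
      (fun b => eval z (f b)) ∈ D ∧
      (∀ j, ∑ i with e i = j, a i * (∏ b, eval z (f b) ^ E i b) * x i ^ 2 =
        c j * ∏ b, eval z (f b) ^ E' j b) ∧
      eval (Sum.elim z x) q ≠ 0 ∧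
      ∀ l, y l = ((eval (Sum.elim z x) (p l) / eval (Sum.elim z x) q : ℚ) : ℝ)}) := by
  classical
  set Q : Fin n → Set (Fin N → ℚ) := fun b =>
    if ∀ d ∈ D, d b ≠ 0 then {z | eval z (f b) ≠ 0} else Set.univ with hQ
  have hblk : ∀ b, Blk (V b) 2 (f b) (Q b) := by
    intro b
    have h1 := blk_quartic (hfV b) (hf b) (hV b) (hsm b)
    by_cases hb : ∀ d ∈ D, d b ≠ 0
    · simp only [hQ, if_pos hb]
      exact h1
    · simp only [hQ, if_neg hb]
      have h2 := (hD0 b).resolve_left hb
      have h3 : rl {z : Fin N → ℚ | eval z (f b) = 0} = {x : Fin N → ℝ | ∃ z : Fin N → ℚ,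
          eval z (f b) = 0 ∧ ∀ i, x i = (z i : ℝ)} := by
        ext x
        constructor
        · rintro ⟨z, hz, rfl⟩
          exact ⟨z, hz, fun _ => rfl⟩
        · rintro ⟨z, hz, hx⟩
          exact ⟨z, hz, funext hx⟩
      rw [← h3] at h2
      refine (h1.union (Blk.of_piece (piece_zero 2 (hfV b) h2.sa))).congr ?_
      ext z
      simp only [Set.mem_union, Set.mem_univ, iff_true]
      exact ne_or_eq _ _
  have hS := Sy_SA e a E c E' (fun b b' hbb => hdisj b b' hbb) hblk (D := D) hD
  have h5 := values_main (ι := Unit) (κ := Empty) (n := Fin N ⊕ Fin r)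
    (fun _ => Sy e a E c E' f (As f Q D)) (fun _ => hS)
    (fun l => rename (fun i => Sum.inl ((), i)) (p l)) (rename (fun i => Sum.inl ((), i)) q)
  refine SA.frozen ?_
  refine cast ?_ h5
  congr 2
  ext y
  simp only [Set.mem_ofPred_eq, eval_rename]
  constructor
  · rintro ⟨X, u, hX, hq, hy⟩
    have e1 : (Sum.elim (fun r : Unit × (Fin N ⊕ Fin r) => X r.1 r.2) u) ∘
        (fun i => Sum.inl ((), i)) = Sum.elim (fun i => X () (Sum.inl i))
          (fun i => X () (Sum.inr i)) := by
      funext s
      rcases s with s | s <;> rfl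
    rw [e1] at hq
    simp only [e1] at hy
    exact ⟨fun i => X () (Sum.inl i), fun i => X () (Sum.inr i), (hX ()).1.2, (hX ()).2, hq, hy⟩
  · rintro ⟨z, x, hz, hx, hq, hy⟩
    refine ⟨fun _ => Sum.elim z x, fun i => i.elim, fun _ => ⟨⟨fun b => ?_, ?_⟩, ?_⟩,
      hq, hy⟩
    · by_cases hb : ∀ d ∈ D, d b ≠ 0
      · simp only [hQ, if_pos hb]
        exact hb _ hz
      · simp only [hQ, if_neg hb]
        exact Set.mem_univ _
    · exact hz
    · exact hx

end Pool.Agent.Results.MP_42de19_nt.QuarticSystems
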